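import Pool.Agent.helper81.DI.SpecA

/-!
# Project di: module A10: splitting off the chains in `Q ⊔ G`
-/

set_option autoImplicit false

namespace Pool.Agent.DI

open Pool.Agent.helper58.DC

section

variable {Γ : Type} [Group Γ]

/-- the terms which are not below `H` -/
def A10_bad (H : Subgroup Γ) (C : Finset (Subgroup Γ)) : Set (Subgroup Γ) := {P | P ∈ C ∧ ¬ P ≤ H}

/-- the smallest such term -/
noncomputable def A10_r (H : Subgroup Γ) (C : Finset (Subgroup Γ)) : Subgroup Γ := sInf (A10_bad H C)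

theorem A10_rmem (H : Subgroup Γ) (C : Finset (Subgroup Γ))
    (hc : IsChain (· ≤ ·) (C : Set (Subgroup Γ))) (hne : ∃ P ∈ C, ¬ P ≤ H) :
    A10_r H C ∈ C ∧ ¬ A10_r H C ≤ H ∧ ∀ P ∈ C, ¬ P ≤ H → A10_r H C ≤ P := by
  have hfin : (A10_bad H C).Finite := C.finite_toSet.subset fun P hP => hP.1
  obtain ⟨m, hm⟩ := hfin.exists_minimal (by
    obtain ⟨P, h1, h2⟩ := hne
    exact ⟨P, h1, h2⟩)
  have h1 : ∀ P ∈ A10_bad H C, m ≤ P := by
    intro P hP
    rcases hc.total hm.1.1 hP.1 with h | h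
    · exact h
    · exact hm.2 hP h
  have h2 : A10_r H C = m := le_antisymm (sInf_le hm.1) (le_sInf h1)
  rw [h2]
  exact ⟨hm.1.1, hm.1.2, fun P hP hP' => h1 P ⟨hP, hP'⟩⟩

theorem A10_nfwd (G Q : Subgroup Γ) (hG : G.Normal) (x : Γ) (hx : x ∈ nz Q) (h : Γ)
    (hh : h ∈ Q ⊔ G) : x * h * x⁻¹ ∈ Q ⊔ G := by
  rw [Subgroup.mem_sup_of_normal_right] at hh ⊢
  obtain ⟨q, hq, g, hg, rfl⟩ := hh
  refine ⟨x * q * x⁻¹, (Subgroup.mem_normalizer_iff.1 hx q).1 hq, x * g * x⁻¹, hG.conj_mem g hg x, ?_⟩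
  group

theorem A10_nsup (G Q : Subgroup Γ) (hG : G.Normal) : nz Q ≤ nz (Q ⊔ G) := by
  intro x hx
  refine Subgroup.mem_normalizer_iff.2 fun h => ⟨A10_nfwd G Q hG x hx h, fun hh => ?_⟩
  have h1 := A10_nfwd G Q hG x⁻¹ (inv_mem hx) _ hh
  have h2 : x⁻¹ * (x * h * x⁻¹) * x⁻¹⁻¹ = h := by group
  rw [h2] at h1
  exact h1

theorem A10_ninf (R H : Subgroup Γ) : nz R ⊓ nz H ≤ nz (R ⊓ H) := by
  rintro x ⟨h1, h2⟩
  refine Subgroup.mem_normalizer_iff.2 fun h => ?_
  have e1 := Subgroup.mem_normalizer_iff.1 h1 h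
  have e2 := Subgroup.mem_normalizer_iff.1 h2 h
  exact and_congr e1 e2

theorem A10_ded (G Q Q' : Subgroup Γ) (hG : G.Normal) (h : Q ≤ Q') (hQ : Q' ⊓ G = ⊥) :
    Q' ⊓ (Q ⊔ G) = Q := by
  refine le_antisymm ?_ (le_inf h le_sup_left)
  intro x hx
  obtain ⟨h1, h2⟩ := Subgroup.mem_inf.1 hx
  rw [Subgroup.mem_sup_of_normal_right] at h2
  obtain ⟨q, hq, g, hg, rfl⟩ := h2
  have h3 : g ∈ Q' := by
    have := Q'.mul_mem (Q'.inv_mem (h hq)) h1
    rwa [inv_mul_cancel_left] at this
  have h4 : g ∈ Q' ⊓ G := ⟨h3, hg⟩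
  rw [hQ, Subgroup.mem_bot] at h4
  rw [h4, mul_one]
  exact hq

theorem A10_nrm_le (C : Finset (Subgroup Γ)) (P : Subgroup Γ) (hP : P ∈ C) : nrm C ≤ nz P :=
  iInf₂_le P hP

open Classical in
theorem A10_nrm_insert (C : Finset (Subgroup Γ)) (P : Subgroup Γ) :
    nrm (insert P C) = nz P ⊓ nrm C := by
  unfold nrm
  rw [Finset.iInf_insert]

open Classical in
/-- the normaliser does not change -/
theorem A10_nrm_eq (G Q : Subgroup Γ) (hG : G.Normal) (R : Subgroup Γ) (C : Finset (Subgroup Γ))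
    (hQ : Q ∈ C) (hR : R ∈ C) : nrm (insert (R ⊓ (Q ⊔ G)) C) = nrm C := by
  rw [A10_nrm_insert]
  refine inf_eq_right.2 ?_
  exact (le_inf (A10_nrm_le C R hR) ((A10_nrm_le C Q hQ).trans (A10_nsup G Q hG))).trans
    (A10_ninf R (Q ⊔ G))

end

open Classical in
theorem A10 (hA1 : A1_stmt) : A10_stmt := by
  intro Γ _ _ p _ G L Q M g hG hQp hQG
  obtain ⟨H, hH⟩ : ∃ H, H = Q ⊔ G := ⟨_, rfl⟩
  have hQH : Q ≤ H := by
    rw [hH]
    exact le_sup_left
  obtain ⟨f, hf⟩ : ∃ f : Finset (Subgroup Γ) → ℤ, f = fun C => (-1) ^ (C.card + 1) * g (M ⊓ nrm C) :=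
    ⟨_, rfl⟩
  obtain ⟨S1, hS1⟩ : ∃ S1 : Set (Finset (Subgroup Γ)), S1 = {C | PCh p (L ⊓ H) Q C} := ⟨_, rfl⟩
  obtain ⟨S2, hS2⟩ : ∃ S2 : Set (Finset (Subgroup Γ)), S2 = {C | PCh p L Q C ∧ (∃ P ∈ C, ¬ P ≤ H) ∧
    A10_r H C ⊓ H ≠ Q} := ⟨_, rfl⟩
  obtain ⟨S3, hS3⟩ : ∃ S3 : Set (Finset (Subgroup Γ)), S3 = {C | PCh p L Q C ∧ (∃ P ∈ C, ¬ P ≤ H) ∧
    A10_r H C ⊓ H = Q} := ⟨_, rfl⟩
  have hU : {C : Finset (Subgroup Γ) | PCh p L Q C} = S1 ∪ (S2 ∪ S3) := by
    ext C
    rw [hS1, hS2, hS3]
    constructor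
    · intro hC
      by_cases h1 : ∃ P ∈ C, ¬ P ≤ H
      · by_cases h2 : A10_r H C ⊓ H = Q
        · exact Or.inr (Or.inr ⟨hC, h1, h2⟩)
        · exact Or.inr (Or.inl ⟨hC, h1, h2⟩)
      · push Not at h1
        exact Or.inl ⟨hC.chain, hC.mem, hC.bot, fun P hP => le_inf (hC.le P hP) (h1 P hP), hC.pg⟩
    · rintro (hC | hC | hC)
      · exact ⟨hC.chain, hC.mem, hC.bot, fun P hP => (hC.le P hP).trans inf_le_left, hC.pg⟩
      · exact hC.1
      · exact hC.1
  have hd1 : Disjoint S1 (S2 ∪ S3) := by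
    rw [Set.disjoint_left]
    intro C h1 h2
    rw [hS1] at h1
    have h3 : ∃ P ∈ C, ¬ P ≤ H := by
      rcases h2 with h2 | h2
      · rw [hS2] at h2
        exact h2.2.1
      · rw [hS3] at h2
        exact h2.2.1
    obtain ⟨P, hP, hPH⟩ := h3
    exact hPH ((h1.le P hP).trans inf_le_right)
  have hd2 : Disjoint S2 S3 := by
    rw [Set.disjoint_left]
    intro C h1 h2
    rw [hS2] at h1
    rw [hS3] at h2
    exact h1.2.2 h2.2.2
  have e1 : cSum p L Q M g = (∑ᶠ C ∈ S1, f C) + ((∑ᶠ C ∈ S2, f C) + ∑ᶠ C ∈ S3, f C) := by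
    have h0 : cSum p L Q M g = ∑ᶠ C ∈ {C : Finset (Subgroup Γ) | PCh p L Q C}, f C := by
      rw [hf]
      rfl
    rw [h0, hU, finsum_mem_union hd1 (Set.toFinite _) (Set.toFinite _),
      finsum_mem_union hd2 (Set.toFinite _) (Set.toFinite _)]
  have e2 : ∑ᶠ C ∈ S1, f C = cSum p (L ⊓ (Q ⊔ G)) Q M g := by
    unfold cSum
    rw [hS1, hf, hH]
  -- the toggled chains
  have e3 : ∑ᶠ C ∈ S2, f C = 0 := by
    rw [hf]
    refine hA1 (Subgroup Γ) S2 (fun C => A10_r H C ⊓ H) (fun C => g (M ⊓ nrm C)) ?_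
    intro C hC D hD
    rw [hS2] at hC
    obtain ⟨hC, hne, hX⟩ := hC
    obtain ⟨hR, hRH, hRmin⟩ := A10_rmem H C hC.chain hne
    obtain ⟨X, hXd⟩ : ∃ X, X = A10_r H C ⊓ H := ⟨_, rfl⟩
    have hD' : D = insert X C ∨ D = C.erase X := by
      rw [hXd]
      exact hD
    rw [← hXd] at hX
    have hXH : X ≤ H := by
      rw [hXd]
      exact inf_le_right
    have hXR : X ≤ A10_r H C := by
      rw [hXd]
      exact inf_le_left
    have hQX : Q ≤ X := by
      rw [hXd]
      exact le_inf (hC.bot _ hR) hQH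
    have hRX : A10_r H C ≠ X := by
      intro h
      exact hRH (h ▸ hXH)
    have hbad : A10_bad H D = A10_bad H C := by
      ext P
      unfold A10_bad
      constructor
      · rintro ⟨h1, h2⟩
        rcases hD' with rfl | rfl
        · rcases Finset.mem_insert.1 h1 with h3 | h3
          · rw [h3] at h2
            exact absurd hXH h2
          · exact ⟨h3, h2⟩
        · exact ⟨Finset.mem_of_mem_erase h1, h2⟩
      · rintro ⟨h1, h2⟩
        rcases hD' with rfl | rfl
        · exact ⟨Finset.mem_insert_of_mem h1, h2⟩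
        · refine ⟨Finset.mem_erase_of_ne_of_mem ?_ h1, h2⟩
          rintro rfl
          exact h2 hXH
    have hr : A10_r H D = A10_r H C := by
      unfold A10_r
      rw [hbad]
    have hne' : ∃ P ∈ D, ¬ P ≤ H := by
      obtain ⟨P, h1, h2⟩ := hne
      have h3 : P ∈ A10_bad H D := by
        rw [hbad]
        exact ⟨h1, h2⟩
      exact ⟨P, h3.1, h3.2⟩
    have hcomp : ∀ P ∈ C, P ≤ X ∨ X ≤ P := by
      intro P hP
      by_cases h1 : P ≤ H
      · left
        rw [hXd]
        refine le_inf ?_ h1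
        rcases hC.chain.total hP hR with h | h
        · exact h
        · exact absurd (h.trans h1) hRH
      · right
        exact hXR.trans (hRmin P hP h1)
    have hpch : PCh p L Q D := by
      rcases hD' with rfl | rfl
      · refine ⟨?_, Finset.mem_insert_of_mem hC.mem, ?_, ?_, ?_⟩
        · rw [Finset.coe_insert]
          refine hC.chain.insert fun P hP _ => ?_
          exact (hcomp P hP).symm
        · intro P hP
          rcases Finset.mem_insert.1 hP with h | h
          · rw [h]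
            exact hQX
          · exact hC.bot P h
        · intro P hP
          rcases Finset.mem_insert.1 hP with h | h
          · rw [h]
            exact hXR.trans (hC.le _ hR)
          · exact hC.le P h
        · intro P hP
          rcases Finset.mem_insert.1 hP with h | h
          · rw [h]
            exact (hC.pg _ hR).to_le hXR
          · exact hC.pg P h
      · refine ⟨?_, Finset.mem_erase_of_ne_of_mem (Ne.symm hX) hC.mem, ?_, ?_, ?_⟩
        · exact hC.chain.mono fun P hP => Finset.mem_of_mem_erase hP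
        · exact fun P hP => hC.bot P (Finset.mem_of_mem_erase hP)
        · exact fun P hP => hC.le P (Finset.mem_of_mem_erase hP)
        · exact fun P hP => hC.pg P (Finset.mem_of_mem_erase hP)
    refine ⟨?_, ?_, ?_⟩
    · rw [hS2]
      refine ⟨hpch, hne', ?_⟩
      rw [hr, ← hXd]
      exact hX
    · show A10_r H D ⊓ H = A10_r H C ⊓ H
      rw [hr]
    · show g (M ⊓ nrm D) = g (M ⊓ nrm C)
      have hn : nrm D = nrm C := by
        rcases hD' with rfl | rfl
        · rw [hXd, hH]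
          exact A10_nrm_eq G Q hG _ C hC.mem (by rw [← hH]; exact hR)
        · by_cases h1 : X ∈ C
          · have h2 : C = insert X (C.erase X) := (Finset.insert_erase h1).symm
            have h3 : nrm (insert X (C.erase X)) = nrm (C.erase X) := by
              have h4 : X = A10_r H C ⊓ (Q ⊔ G) := by rw [hXd, ← hH]
              have h5 := A10_nrm_eq G Q hG (A10_r H C) (C.erase X)
                (Finset.mem_erase_of_ne_of_mem (Ne.symm hX) hC.mem)
                (Finset.mem_erase_of_ne_of_mem hRX hR)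
              rw [← h4] at h5
              exact h5
            rw [← h2] at h3
            exact h3.symm
          · rw [Finset.erase_eq_of_notMem h1]
      rw [hn]
  -- the other chains
  obtain ⟨T, hT⟩ : ∃ T : Set (Subgroup Γ), T = {Q' | Q < Q' ∧ Q' ≤ L ∧ IsPGroup p Q' ∧ Q' ⊓ G = ⊥} :=
    ⟨_, rfl⟩
  have hnot : ∀ Q' C', Q < Q' → PCh p L Q' C' → Q ∉ C' := by
    intro Q' C' h1 h2 h3
    exact absurd (h2.bot Q h3) (not_le_of_gt h1)
  have hS3' : S3 = ⋃ Q' ∈ T, (fun C' => insert Q C') '' {C' : Finset (Subgroup Γ) | PCh p L Q' C'} := by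
    ext C
    rw [hS3, hT]
    constructor
    · rintro ⟨hC, hne, hX⟩
      obtain ⟨hR, hRH, hRmin⟩ := A10_rmem H C hC.chain hne
      have hQR : Q ≤ A10_r H C := hC.bot _ hR
      have hne2 : A10_r H C ≠ Q := by
        intro h
        exact hRH (h ▸ hQH)
      rw [Set.mem_iUnion₂]
      refine ⟨A10_r H C, ⟨lt_of_le_of_ne hQR hne2.symm, hC.le _ hR, hC.pg _ hR, ?_⟩, C.erase Q, ?_,
        Finset.insert_erase hC.mem⟩
      · refine le_antisymm ?_ bot_le
        rw [← hQG]
        refine le_inf ?_ inf_le_right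
        have h1 : A10_r H C ⊓ G ≤ A10_r H C ⊓ H := by
          refine inf_le_inf le_rfl ?_
          rw [hH]
          exact le_sup_right
        rw [hX] at h1
        exact h1
      · have h1 : ∀ P ∈ C.erase Q, A10_r H C ≤ P := by
          intro P hP
          have hPQ : P ≠ Q := Finset.ne_of_mem_erase hP
          have hPC := Finset.mem_of_mem_erase hP
          by_cases h2 : P ≤ H
          · exfalso
            apply hPQ
            refine le_antisymm ?_ (hC.bot P hPC)
            rw [← hX]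
            refine le_inf ?_ h2
            rcases hC.chain.total hPC hR with h | h
            · exact h
            · exact absurd (h.trans h2) hRH
          · exact hRmin P hPC h2
        exact ⟨hC.chain.mono fun P hP => Finset.mem_of_mem_erase hP,
          Finset.mem_erase_of_ne_of_mem hne2 hR, h1,
          fun P hP => hC.le P (Finset.mem_of_mem_erase hP),
          fun P hP => hC.pg P (Finset.mem_of_mem_erase hP)⟩
    · rw [Set.mem_iUnion₂]
      rintro ⟨Q', ⟨hQQ, hQL, hQp', hQG'⟩, C', hC', rfl⟩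
      have hC' : PCh p L Q' C' := hC'
      have hded : Q' ⊓ H = Q := by
        rw [hH]
        exact A10_ded G Q Q' hG hQQ.le hQG'
      have hQ'H : ¬ Q' ≤ H := by
        intro h
        rw [inf_eq_left.2 h] at hded
        exact hQQ.ne hded.symm
      have hpch : PCh p L Q (insert Q C') := by
        refine ⟨?_, Finset.mem_insert_self _ _, ?_, ?_, ?_⟩
        · rw [Finset.coe_insert]
          refine hC'.chain.insert fun P hP _ => ?_
          exact Or.inl (hQQ.le.trans (hC'.bot P hP))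
        · intro P hP
          rcases Finset.mem_insert.1 hP with h | h
          · rw [h]
          · exact hQQ.le.trans (hC'.bot P h)
        · intro P hP
          rcases Finset.mem_insert.1 hP with h | h
          · rw [h]
            exact hQQ.le.trans hQL
          · exact hC'.le P h
        · intro P hP
          rcases Finset.mem_insert.1 hP with h | h
          · rw [h]
            exact hQp
          · exact hC'.pg P h
      have hne : ∃ P ∈ insert Q C', ¬ P ≤ H := ⟨Q', Finset.mem_insert_of_mem hC'.mem, hQ'H⟩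
      obtain ⟨hR, hRH, hRmin⟩ := A10_rmem H (insert Q C') hpch.chain hne
      have hRQ' : A10_r H (insert Q C') = Q' := by
        refine le_antisymm (hRmin Q' (Finset.mem_insert_of_mem hC'.mem) hQ'H) ?_
        rcases Finset.mem_insert.1 hR with h | h
        · exact absurd (by rw [h]; exact hQH) hRH
        · exact hC'.bot _ h
      refine ⟨hpch, hne, ?_⟩
      rw [hRQ', hded]
  have e4 : ∑ᶠ C ∈ S3, f C = -∑ᶠ Q' ∈ T, cSum p L Q' (M ⊓ nz Q) g := by
    rw [hS3', finsum_mem_biUnion ?_ (Set.toFinite _) (fun _ _ => Set.toFinite _)]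
    · rw [← finsum_mem_neg_distrib _ (Set.toFinite _)]
      refine finsum_mem_congr rfl fun Q' hQ' => ?_
      rw [hT] at hQ'
      rw [finsum_mem_image]
      · unfold cSum
        rw [← finsum_mem_neg_distrib _ (Set.toFinite _)]
        refine finsum_mem_congr rfl fun C' hC' => ?_
        rw [hf]
        show (-1) ^ ((insert Q C').card + 1) * g (M ⊓ nrm (insert Q C')) =
          -((-1) ^ (C'.card + 1) * g (M ⊓ nz Q ⊓ nrm C'))
        rw [Finset.card_insert_of_notMem (hnot Q' C' hQ'.1 hC'), A10_nrm_insert, inf_assoc,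
          pow_succ (-1 : ℤ) (C'.card + 1)]
        ring
      · intro C1 h1 C2 h2 h12
        have h12 : insert Q C1 = insert Q C2 := h12
        have h3 := congrArg (fun C : Finset (Subgroup Γ) => C.erase Q) h12
        simp only [Finset.erase_insert (hnot Q' C1 hQ'.1 h1),
          Finset.erase_insert (hnot Q' C2 hQ'.1 h2)] at h3
        exact h3
    · intro Q1 h1 Q2 h2 h12
      rw [hT] at h1 h2
      rw [Function.onFun, Set.disjoint_left]
      rintro C ⟨C1, hC1, rfl⟩ ⟨C2, hC2, h3⟩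
      apply h12
      have h3 : insert Q C2 = insert Q C1 := h3
      have h4 := congrArg (fun C : Finset (Subgroup Γ) => C.erase Q) h3
      simp only [Finset.erase_insert (hnot Q1 C1 h1.1 hC1),
        Finset.erase_insert (hnot Q2 C2 h2.1 hC2)] at h4
      have hC1 : PCh p L Q1 C1 := hC1
      have hC2 : PCh p L Q2 C2 := hC2
      rw [h4] at hC2
      exact le_antisymm (hC1.bot Q2 hC2.mem) (hC2.bot Q1 hC1.mem)
  rw [e1, e2, e3, e4, hT, zero_add, sub_eq_add_neg]

end Pool.Agent.DI
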